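import Pool.Agent.J6H24.OF.Nine
import Pool.Agent.TH583.FO.Main

/-!
# `1/2`-flow-pairs from 2-factors with at most four odd circuits: averaging over all 2-factors
-/

set_option linter.all false
set_option maxHeartbeats 4000000

namespace Pool.Agent.J6H24.OF

open Finset Pool.Agent.H160R2.HF Pool.Agent.TH583.FO

theorem four {V E : Type*} [Fintype V] [Fintype E] [DecidableEq V] [DecidableEq E]
    (G : OrGraph V E) (hc : G.Cubic) (h9 : OddCyclic G 9) (F : Finset E) (hF : G.IsTwoFactor F)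
    (ht : G.oddCount F ≤ 4) :
    ∃ φ₂ φ₄ : E → ℤ, G.IsHalfFlowPair φ₂ φ₄ ∧ ∀ e, φ₂ e ≠ 0 ↔ e ∈ F := by
  obtain ⟨φ₂, φ, ⟨h1, h2, h3⟩, h4⟩ := exists_pair_oddness_four G hc F hF h9 ht
  exact ⟨φ₂, φ, ⟨h1, h2, fun e he => by have := h3 e he; simpa using this⟩, h4⟩

variable {V E : Type} [Fintype V] [Fintype E] [DecidableEq V] [DecidableEq E]

theorem main (G : OrGraph V E) (hc : G.Cubic) (hb : G.Bridgeless) (h9 : OddCyclic G 9)
    (y : Finset V → ℝ) (hy : ∀ S, 0 ≤ y S)
    (h1 : ∀ F : Finset E, G.IsTwoFactor F → 4 < G.oddCount F → 1 ≤ ∑ S ∈ oddSets G F, y S)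
    (h2 : ∑ S ∈ allOdd G,
      y S * ((((G.cut S).card : ℝ) - 3) / (3 * ((G.cut S).card - 1))) < 1) :
    ∃ φ₂ φ₄ : E → ℤ, G.IsHalfFlowPair φ₂ φ₄ := by
  obtain ⟨F, hF, h3, hle⟩ := factor G hc hb y hy
  by_cases ht : G.oddCount F ≤ 4
  · obtain ⟨φ₂, φ₄, h, _⟩ := four G hc h9 F hF ht
    exact ⟨φ₂, φ₄, h⟩
  · exfalso
    have h4 := h1 F hF (by omega)
    linarith

theorem count (G : OrGraph V E) (hc : G.Cubic) (hb : G.Bridgeless) (h9 : OddCyclic G 9)
    (hcard : (allOdd G).card ≤ 18) :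
    ∃ φ₂ φ₄ : E → ℤ, G.IsHalfFlowPair φ₂ φ₄ := by
  refine main G hc hb h9 (fun _ => 1 / 6) (fun _ => by positivity) ?_ ?_
  · intro F _ hlt
    have h1 := oddCount_le G F
    obtain ⟨m, hm⟩ := even_oddCount G hc F
    have h2 : 6 ≤ (oddSets G F).card := by omega
    rw [Finset.sum_const, nsmul_eq_mul, mul_one_div, le_div_iff₀ (by positivity), one_mul]
    exact_mod_cast h2
  · rcases (allOdd G).eq_empty_or_nonempty with he | hne
    · rw [he, Finset.sum_empty]; norm_num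
    · have hodd : ∀ S ∈ allOdd G, Odd S.card := fun S hS => by
        obtain ⟨F, _, h⟩ := mem_allOdd.1 hS
        exact (mem_oddSets.1 h).1
      have h5 : ∑ S ∈ allOdd G, 1 / 6 *
          ((((G.cut S).card : ℝ) - 3) / (3 * ((G.cut S).card - 1))) <
          ∑ S ∈ allOdd G, (1 / 6 : ℝ) * (1 / 3) := by
        refine Finset.sum_lt_sum_of_nonempty hne fun S hS => ?_
        have h3 := cut_three G hc hb S (hodd S hS)
        have h5 : (3 : ℝ) ≤ (G.cut S).card := by exact_mod_cast h3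
        refine mul_lt_mul_of_pos_left ?_ (by positivity)
        rw [div_lt_div_iff₀ (by linarith) (by norm_num)]
        linarith
      refine h5.trans_le ?_
      rw [Finset.sum_const, nsmul_eq_mul]
      have h6 : ((allOdd G).card : ℝ) ≤ 18 := by exact_mod_cast hcard
      linarith

end Pool.Agent.J6H24.OF
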