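import Pool.Agent.W965.TFP.FinalC

/-!
# `1/2`-flow-pairs of cubic graphs with a 2-factor having at most four odd circuits
-/

set_option linter.all false
set_option maxHeartbeats 4000000

namespace Pool.Agent.J6H24.OF
open Pool.Agent.W965.TFP Pool.Agent.W965.TFP.Odd
open Pool.Agent.W965.TFP.OddC (cut_odd)
open Finset Pool.Agent.H160R2.HF Pool.Agent.H160R2.HF.OrGraph Pool.Agent.H884R2.HFP

section

variable {V E : Type*} [Fintype V] [Fintype E] [DecidableEq V] [DecidableEq E] (G : OrGraph V E)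

/-- Every odd edge cut with cycles on both sides has at least `m` edges. -/
def OddCyclic (m : ℕ) : Prop :=
  ∀ X : Finset V, G.HasCycleIn X → G.HasCycleIn Xᶜ → Odd (G.cut X).card → m ≤ (G.cut X).card

theorem nine_le_of_disjoint (F : Finset E) (hF : G.IsTwoFactor F) (h9' : OddCyclic G 9)
    (X : Finset V) (h0 : (G.cut X ∩ F).card = 0) (hodd : Odd (G.cut X).card) :
    9 ≤ (G.cut X).card := by
  have hne : (G.cut X).Nonempty := by
    rw [← Finset.card_pos]
    rw [Nat.odd_iff] at hodd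
    omega
  obtain ⟨e, he⟩ := hne
  rw [cut, Finset.mem_filter] at he
  have hX : X.Nonempty := by
    by_contra hcon
    rw [Finset.not_nonempty_iff_eq_empty] at hcon
    rw [hcon] at he; simp at he
  have hXc : Xᶜ.Nonempty := by
    by_contra hcon
    rw [Finset.not_nonempty_iff_eq_empty, Finset.compl_eq_empty_iff] at hcon
    rw [hcon] at he; simp at he
  rw [Finset.card_eq_zero] at h0
  exact h9' X (G.hasCycleIn_of_cut F hF X h0 hX)
    (G.hasCycleIn_of_cut F hF Xᶜ (by rw [cut_compl']; exact h0) hXc) hodd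

/-- A set with two vertices of `U` and at most two boundary edges in `F`, all of them in `B`, has a
cycle and at least eleven vertices. -/
theorem large (hc : G.Cubic) (F : Finset E) (hF : G.IsTwoFactor F)
    (h9' : OddCyclic G 9) (B : Finset E) (hBF : B ⊆ F)
    (U : Finset V) (hU : ∀ u ∈ U, ∀ v ∈ U, (G.sub F).Reachable u v → u = v)
    (hB : ∀ v, G.deg B v = if v ∈ U then 0 else 1) (W : Finset V)
    (hW : (U.filter (fun u => u ∈ W)).card = 2) (hcF : (G.cut W ∩ F).card < 4)
    (hWB : G.cut W ∩ F ⊆ B) : G.HasCycleIn W ∧ 11 ≤ W.card := by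
  classical
  obtain ⟨u, hu, hu2⟩ := exists_comp_inside G F hF W (U.filter (fun u => u ∈ W)) (by
    intro u hu; exact (Finset.mem_filter.1 hu).2) (by
    intro u hu v hv huv
    exact hU u (Finset.mem_filter.1 hu).1 v (Finset.mem_filter.1 hv).1 huv) (by omega)
  have huW : u ∈ W := (Finset.mem_filter.1 hu).2
  refine ⟨hasCycleIn_of_comp G F hF W u huW hu2, ?_⟩
  obtain ⟨w, hw, hwu⟩ : ∃ w ∈ U.filter (fun u => u ∈ W), w ≠ u := by
    apply Finset.exists_mem_ne _ u
    omega
  have hwW : w ∈ W := (Finset.mem_filter.1 hw).2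
  set O : Finset V := W.filter (fun v => (G.sub F).Reachable u v) with hO
  have hside : ∀ e ∈ F, (G.sub F).Reachable (G.t e) (G.h e) := by
    intro e he
    by_cases h5 : G.t e = G.h e
    · rw [h5]
    · apply SimpleGraph.Adj.reachable
      rw [sub, SimpleGraph.fromRel_adj]
      exact ⟨h5, Or.inl ⟨e, he, rfl, rfl⟩⟩
  have hcut : (G.cut O ∩ F).card = 0 := by
    rw [Finset.card_eq_zero]
    ext e
    simp only [cut, Finset.mem_inter, Finset.mem_filter, Finset.mem_univ, true_and,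
      Finset.notMem_empty, iff_false, hO]
    rintro ⟨h1, he⟩
    have h2 := hside e he
    apply h1
    exact ⟨fun h3 => ⟨hu2 _ (h3.2.trans h2), h3.2.trans h2⟩,
      fun h3 => ⟨hu2 _ (h3.2.trans h2.symm), h3.2.trans h2.symm⟩⟩
  have huO : u ∈ O := Finset.mem_filter.2 ⟨huW, SimpleGraph.Reachable.refl u⟩
  have hwO : w ∉ O := by
    intro h
    apply hwu
    exact (hU u (Finset.mem_filter.1 hu).1 w (Finset.mem_filter.1 hw).1
      (Finset.mem_filter.1 h).2).symm
  have hone : U.filter (fun x => x ∈ O) = {u} := by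
    ext x
    rw [Finset.mem_filter, Finset.mem_singleton]
    constructor
    · rintro ⟨hx1, hx2⟩
      exact (hU u (Finset.mem_filter.1 hu).1 x hx1 (Finset.mem_filter.1 hx2).2).symm
    · rintro rfl
      exact ⟨(Finset.mem_filter.1 hu).1, huO⟩
  have hoddO := cut_odd G hc F hF U B hBF hB O (by rw [hone]; simp) (by
    rw [Finset.card_eq_zero] at hcut
    rw [hcut]; exact Finset.empty_subset _)
  have h9c := nine_le_of_disjoint G F hF h9' O hcut hoddO
  have h8 := cut_card G F O
  have h9 := G.handshake Fᶜ O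
  rw [Finset.sum_congr rfl (fun v _ => deg_compl G hc F hF v)] at h9
  simp only [Finset.sum_const, smul_eq_mul, mul_one] at h9
  have h10 : O.card < W.card := Finset.card_lt_card ⟨Finset.filter_subset _ _, fun h => hwO (h hwW)⟩
  by_contra hlt
  have h11 : W.card = O.card + 1 := by omega
  have hW1 : ∀ v ∈ W, v ∉ O → v = w := by
    intro v hv hvO
    by_contra hne
    have h12 : insert v (insert w O) ⊆ W := by
      intro x hx
      rw [Finset.mem_insert, Finset.mem_insert] at hx
      rcases hx with rfl | rfl | hx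
      · exact hv
      · exact hwW
      · exact (Finset.mem_filter.1 hx).1
    have h13 := Finset.card_le_card h12
    rw [Finset.card_insert_of_notMem (by
      rw [Finset.mem_insert]
      rintro (h | h)
      · exact hne h
      · exact hvO h), Finset.card_insert_of_notMem hwO] at h13
    omega
  have hwU : w ∈ U := (Finset.mem_filter.1 hw).1
  have hBw : ∀ e ∈ B, G.t e ≠ w ∧ G.h e ≠ w := by
    intro e he
    have h12 := hB w
    rw [if_pos hwU] at h12
    unfold deg at h12
    constructor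
    · intro h13
      have : e ∈ B.filter (fun e => G.t e = w) := Finset.mem_filter.2 ⟨he, h13⟩
      have := Finset.card_pos.2 ⟨e, this⟩
      omega
    · intro h13
      have : e ∈ B.filter (fun e => G.h e = w) := Finset.mem_filter.2 ⟨he, h13⟩
      have := Finset.card_pos.2 ⟨e, this⟩
      omega
  have hcw : (G.cut ({w} : Finset V) ∩ F).card = 0 := by
    rw [Finset.card_eq_zero, Finset.eq_empty_iff_forall_notMem]
    intro e he
    rw [Finset.mem_inter] at he
    have h12 := he.1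
    simp only [cut, Finset.mem_filter, Finset.mem_univ, true_and, Finset.mem_singleton] at h12
    have h14 : ¬ (G.t e ∈ O ∨ G.h e ∈ O) := by
      intro h15
      have h16 := hside e he.2
      have h17 : G.t e ∈ O ∧ G.h e ∈ O := by
        simp only [hO, Finset.mem_filter] at h15 ⊢
        rcases h15 with h15 | h15
        · exact ⟨h15, hu2 _ (h15.2.trans h16), h15.2.trans h16⟩
        · exact ⟨⟨hu2 _ (h15.2.trans h16.symm), h15.2.trans h16.symm⟩, h15⟩
      apply h12
      constructor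
      · intro h18; exact absurd h17.1 (by rw [h18]; exact hwO)
      · intro h18; exact absurd h17.2 (by rw [h18]; exact hwO)
    have h15 : e ∈ G.cut W ∩ F := by
      refine Finset.mem_inter.2 ⟨?_, he.2⟩
      simp only [cut, Finset.mem_filter, Finset.mem_univ, true_and]
      intro h16
      apply h12
      constructor
      · intro h18
        have h19 : G.h e ∈ W := h16.1 (by rw [h18]; exact hwW)
        exact hW1 _ h19 fun h => h14 (Or.inr h)
      · intro h18
        have h19 : G.t e ∈ W := h16.2 (by rw [h18]; exact hwW)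
        exact hW1 _ h19 fun h => h14 (Or.inl h)
    have h16 := hBw e (hWB h15)
    have h17 : G.t e = w ∨ G.h e = w := by
      by_contra h18
      push Not at h18
      exact h12 ⟨fun h => absurd h h18.1, fun h => absurd h h18.2⟩
    rcases h17 with h17 | h17
    · exact h16.1 h17
    · exact h16.2 h17
  have h12 := cut_odd G hc F hF U B hBF hB {w} (by
    have : U.filter (fun x => x ∈ ({w} : Finset V)) = {w} := by
      ext x
      rw [Finset.mem_filter, Finset.mem_singleton]
      exact ⟨fun h => h.2, fun h => ⟨by rw [h]; exact hwU, h⟩⟩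
    rw [this]; simp) (by
    rw [Finset.card_eq_zero] at hcw
    rw [hcw]; exact Finset.empty_subset _)
  have h13 := nine_le_of_disjoint G F hF h9' {w} hcw h12
  have h14 := G.handshake Finset.univ {w}
  rw [Finset.sum_singleton, hc w, Finset.inter_univ] at h14
  omega

/-- A set with one vertex of `U` all of whose boundary edges in `F` are in `B`. -/
theorem corner (hc : G.Cubic) (F : Finset E) (hF : G.IsTwoFactor F)
    (h9' : OddCyclic G 9) (U : Finset V) (B : Finset E) (hBF : B ⊆ F)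
    (hB : ∀ v, G.deg B v = if v ∈ U then 0 else 1) (Z : Finset V)
    (hZ : (U.filter (fun u => u ∈ Z)).card = 1) (hZF : G.cut Z ∩ F ⊆ B)
    (hcyc : G.HasCycleIn Zᶜ) : 9 ≤ (G.cut Z).card ∨ Z.card ≤ 5 := by
  classical
  have hne : Z.Nonempty := by
    obtain ⟨u, hu⟩ := Finset.card_pos.1 (by rw [hZ]; exact one_pos)
    exact ⟨u, (Finset.mem_filter.1 hu).2⟩
  have hodd := cut_odd G hc F hF U B hBF hB Z (by rw [hZ]; exact odd_one) hZF
  have hpar := Nat.odd_iff.1 hodd
  by_cases hcase : G.HasCycleIn Z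
  · left
    exact h9' Z hcase hcyc hodd
  · have := Pool.Agent.H185C.acyclic_le G hc Z hne hcase
    omega

/-- Two crossing bad cuts are impossible. -/
theorem no_two_bad (hc : G.Cubic) (F : Finset E) (hF : G.IsTwoFactor F)
    (h9' : OddCyclic G 9) (U : Finset V)
    (hU : ∀ u ∈ U, ∀ v ∈ U, (G.sub F).Reachable u v → u = v) (B : Finset E) (hBF : B ⊆ F)
    (hB : ∀ v, G.deg B v = if v ∈ U then 0 else 1) (X Y : Finset V)
    (hX8 : (G.cut X).card ≤ 8) (hY8 : (G.cut Y).card ≤ 8)
    (hXF : (G.cut X ∩ F).card ≤ 2) (hYF : (G.cut Y ∩ F).card ≤ 2)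
    (hXB : G.cut X ∩ F ⊆ B) (hYB : G.cut Y ∩ F ⊆ B)
    (h1 : (U.filter (fun u => u ∈ X ∩ Y)).card = 1)
    (h2 : (U.filter (fun u => u ∈ X ∩ Yᶜ)).card = 1)
    (h3 : (U.filter (fun u => u ∈ Xᶜ ∩ Y)).card = 1)
    (h4 : (U.filter (fun u => u ∈ Xᶜ ∩ Yᶜ)).card = 1) : False := by
  classical
  -- counts on the four big sets
  have split : ∀ P Q : Finset V, (U.filter (fun u => u ∈ P)).card =
      (U.filter (fun u => u ∈ P ∩ Q)).card + (U.filter (fun u => u ∈ P ∩ Qᶜ)).card := by
    intro P Q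
    rw [← Finset.card_union_of_disjoint]
    · congr 1
      ext u
      simp only [Finset.mem_filter, Finset.mem_union, Finset.mem_inter, Finset.mem_compl]
      tauto
    · rw [Finset.disjoint_left]
      intro u hu hv
      simp only [Finset.mem_filter, Finset.mem_inter, Finset.mem_compl] at hu hv
      exact hv.2.2 hu.2.2
  have cX : (U.filter (fun u => u ∈ X)).card = 2 := by rw [split X Y]; omega
  have cXc : (U.filter (fun u => u ∈ Xᶜ)).card = 2 := by rw [split Xᶜ Y]; omega
  have cY : (U.filter (fun u => u ∈ Y)).card = 2 := by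
    rw [split Y X, Finset.inter_comm Y X, Finset.inter_comm Y Xᶜ]; omega
  have cYc : (U.filter (fun u => u ∈ Yᶜ)).card = 2 := by
    rw [split Yᶜ X, Finset.inter_comm Yᶜ X, Finset.inter_comm Yᶜ Xᶜ]; omega
  have lX := large G hc F hF h9' B hBF U hU hB X cX (by omega) hXB
  have lXc := large G hc F hF h9' B hBF U hU hB Xᶜ cXc (by rw [cut_compl']; omega)
    (by rw [cut_compl']; exact hXB)
  have lY := large G hc F hF h9' B hBF U hU hB Y cY (by omega) hYB
  have lYc := large G hc F hF h9' B hBF U hU hB Yᶜ cYc (by rw [cut_compl']; omega)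
    (by rw [cut_compl']; exact hYB)
  have hsub : ∀ P Q : Finset V, G.cut P ∩ F ⊆ B → G.cut Q ∩ F ⊆ B → G.cut (P ∩ Q) ∩ F ⊆ B := by
    intro P Q hP hQ e he
    rw [Finset.mem_inter] at he
    have h5 : e ∈ G.cut P ∨ e ∈ G.cut Q := by
      have := he.1
      simp only [OrGraph.cut, Finset.mem_filter, Finset.mem_univ, true_and,
        Finset.mem_inter] at this ⊢
      tauto
    rcases h5 with h5 | h5
    · exact hP (Finset.mem_inter.2 ⟨h5, he.2⟩)
    · exact hQ (Finset.mem_inter.2 ⟨h5, he.2⟩)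
  have hXBc : G.cut Xᶜ ∩ F ⊆ B := by rw [cut_compl']; exact hXB
  have hYBc : G.cut Yᶜ ∩ F ⊆ B := by rw [cut_compl']; exact hYB
  have k1 := corner G hc F hF h9' U B hBF hB (X ∩ Y) h1 (hsub X Y hXB hYB)
    (hasCycleIn_mono G (by
      intro v hv; simp only [Finset.mem_compl, Finset.mem_inter] at hv ⊢; tauto) lXc.1)
  have k2 := corner G hc F hF h9' U B hBF hB (X ∩ Yᶜ) h2 (hsub X Yᶜ hXB hYBc)
    (hasCycleIn_mono G (by
      intro v hv; simp only [Finset.mem_compl, Finset.mem_inter] at hv ⊢; tauto) lXc.1)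
  have k3 := corner G hc F hF h9' U B hBF hB (Xᶜ ∩ Y) h3 (hsub Xᶜ Y hXBc hYB)
    (hasCycleIn_mono G (by
      intro v hv; simp only [Finset.mem_compl, Finset.mem_inter] at hv ⊢; tauto) lX.1)
  have k4 := corner G hc F hF h9' U B hBF hB (Xᶜ ∩ Yᶜ) h4 (hsub Xᶜ Yᶜ hXBc hYBc)
    (hasCycleIn_mono G (by
      intro v hv; simp only [Finset.mem_compl, Finset.mem_inter] at hv ⊢; tauto) lX.1)
  have s1 := cut_submod G X Y
  have s2 := cut_submod G X Yᶜ
  have e1 : (G.cut (X ∪ Y)).card = (G.cut (Xᶜ ∩ Yᶜ)).card := by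
    rw [← cut_compl' G (X ∪ Y), Finset.compl_union]
  have e2 : (G.cut (X ∪ Yᶜ)).card = (G.cut (Xᶜ ∩ Y)).card := by
    rw [← cut_compl' G (X ∪ Yᶜ), Finset.compl_union, compl_compl]
  rw [e1] at s1
  rw [e2, cut_compl'] at s2
  have hcard : ∀ P Q : Finset V, P.card = (P ∩ Q).card + (P ∩ Qᶜ).card := by
    intro P Q
    rw [← Finset.card_union_of_disjoint]
    · congr 1
      ext u
      simp only [Finset.mem_union, Finset.mem_inter, Finset.mem_compl]
      tauto
    · rw [Finset.disjoint_left]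
      intro u hu hv
      simp only [Finset.mem_inter, Finset.mem_compl] at hu hv
      exact hv.2 hu.2
  have d1 := hcard X Y
  have d2 := hcard Xᶜ Y
  have d3 := hcard Y X
  have d4 := hcard Yᶜ X
  rw [Finset.inter_comm Y X, Finset.inter_comm Y Xᶜ] at d3
  rw [Finset.inter_comm Yᶜ X, Finset.inter_comm Yᶜ Xᶜ] at d4
  have := lX.2
  have := lXc.2
  have := lY.2
  have := lYc.2
  omega



/-- The structure of a cut violating the Hoffman condition. -/
theorem bad_struct (F : Finset E) (hF : G.IsTwoFactor F)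
    (B : Finset E) (hBF : B ⊆ F) (ψ : E → ℤ)
    (hψ1 : ∀ e, (e ∈ Fᶜ → ψ e = 1 ∨ ψ e = -1) ∧ (e ∉ Fᶜ → ψ e = 0)) (X : Finset V) (n : ℤ)
    (hb : |∑ v ∈ X, net G.t G.h ψ v| ≤ (G.cut X ∩ B).card + |n|) (hn : |n| ≤ 2)
    (hodd : |n| = 1 → (G.cut X ∩ F).card = 0 → 9 ≤ (G.cut X).card)
    (hfail : ¬ (((1 : ℕ) : ℤ) + 2 * (2 : ℕ)) * ∑ v ∈ X, net G.t G.h ψ v ≤
      2 * (((1 : ℕ) : ℤ) + (2 : ℕ)) * (G.cut X ∩ F).card + ((1 : ℕ) : ℤ) * (G.cut X ∩ Fᶜ).card) :
    (G.cut X).card ≤ 8 ∧ (G.cut X ∩ F).card ≤ 2 ∧ G.cut X ∩ F ⊆ B ∧ |n| = 2 := by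
  classical
  have hm := G.abs_net_le ψ Fᶜ (fun e he => by
    rcases (hψ1 e).1 he with h | h <;> rw [h] <;> simp) (fun e he => (hψ1 e).2 he) X
  have hpar := net_parity G ψ Fᶜ (fun e he => (hψ1 e).1 he) (fun e he => (hψ1 e).2 he) X
  have hbf : (G.cut X ∩ B).card ≤ (G.cut X ∩ F).card :=
    Finset.card_le_card (Finset.inter_subset_inter_left hBF)
  have hhs := G.handshake F X
  rw [Finset.sum_congr rfl (fun v _ => hF v)] at hhs
  simp only [Finset.sum_const, smul_eq_mul] at hhs
  have hcard := cut_card G F X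
  generalize (∑ v ∈ X, net G.t G.h ψ v) = ν at *
  have hn0 : (0 : ℤ) ≤ |n| := abs_nonneg n
  generalize |n| = N at *
  rw [abs_le] at hm hb
  push_cast at hfail
  have hkey : (G.cut X).card ≤ 8 ∧ (G.cut X ∩ F).card ≤ 2 ∧
      (G.cut X ∩ B).card = (G.cut X ∩ F).card ∧ N = 2 := by
    by_cases h0 : (G.cut X ∩ F).card = 0
    · by_cases h1 : N = 1
      · have := hodd h1 h0
        omega
      · omega
    · omega
  refine ⟨hkey.1, hkey.2.1, ?_, hkey.2.2.2⟩
  have h1 : G.cut X ∩ B = G.cut X ∩ F :=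
    Finset.eq_of_subset_of_card_le (Finset.inter_subset_inter_left hBF) hkey.2.2.1.ge
  rw [← h1]
  exact Finset.inter_subset_right

/-- The case in which the first orientation has `a, c` of one sign and `b, d` of the other. -/
theorem four_aux (hc : G.Cubic) (F : Finset E) (hF : G.IsTwoFactor F)
    (h9' : OddCyclic G 9) (a b c d : V) (hab : a ≠ b) (hac : a ≠ c) (had : a ≠ d)
    (hbc : b ≠ c) (hbd : b ≠ d) (hcd : c ≠ d)
    (hU : ∀ u ∈ ({a, b, c, d} : Finset V), ∀ v ∈ ({a, b, c, d} : Finset V),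
      (G.sub F).Reachable u v → u = v) (B : Finset E) (hBF : B ⊆ F)
    (hB : ∀ v, G.deg B v = if v ∈ ({a, b, c, d} : Finset V) then 0 else 1)
    (ψ : E → ℤ) (σ : V → ℤ)
    (hψ : ∀ e, (e ∈ Fᶜ → ψ e = 1 ∨ ψ e = -1) ∧ (e ∉ Fᶜ → ψ e = 0))
    (h0 : ∀ u, u ∉ ({a, b, c, d} : Finset V) → σ u = 0)
    (ha : σ a = 1 ∨ σ a = -1) (hb : σ b = -σ a) (hcc : σ c = σ a) (hd : σ d = -σ a)
    (hbound : ∀ X : Finset V, |∑ v ∈ X, net G.t G.h ψ v| ≤
      (G.cut X ∩ B).card + |∑ v ∈ X, σ v|) :
    ∃ φ₂ φ : E → ℤ, IsFlowPair G 1 2 φ₂ φ ∧ ∀ e, φ₂ e ≠ 0 ↔ e ∈ F := by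
  classical
  have sum4 := sum_four a b c d hab hac had hbc hbd hcd
  have cnt4 := count_four a b c d hab hac had hbc hbd hcd
  by_cases hX : ∀ X : Finset V, (((1 : ℕ) : ℤ) + 2 * (2 : ℕ)) * ∑ v ∈ X, net G.t G.h ψ v ≤
      2 * (((1 : ℕ) : ℤ) + (2 : ℕ)) * (G.cut X ∩ F).card + ((1 : ℕ) : ℤ) * (G.cut X ∩ Fᶜ).card
  · exact pair_of_orientation G F hF ψ hψ 1 2 hX
  push Not at hX
  obtain ⟨X, hX⟩ := hX
  -- the second orientation
  obtain ⟨ψ', σ', hψ', hσ', h0', hbound'⟩ := exists_orientation_signs G Fᶜ B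
    (Finset.disjoint_of_subset_right hBF disjoint_compl_left) (deg_compl G hc F hF)
    ({a, b, c, d} : Finset V) hB
    (fun v => if v = a then c else if v = c then a else if v = b then d else
      if v = d then b else v) (by
      intro u hu
      simp only [Finset.mem_insert, Finset.mem_singleton] at hu
      rcases hu with rfl | rfl | rfl | rfl <;>
        simp [hab, hac, had, hbc, hbd, hcd, hab.symm, hac.symm, had.symm, hbc.symm, hbd.symm,
          hcd.symm])
  have ha' := (hσ' a (by simp)).1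
  have hb' := (hσ' b (by simp)).1
  have hc' : σ' c = -σ' a := by
    have := (hσ' a (by simp)).2
    simpa using this
  have hd' : σ' d = -σ' b := by
    have := (hσ' b (by simp)).2
    simpa [hab.symm, hbc] using this
  by_cases hY : ∀ X : Finset V, (((1 : ℕ) : ℤ) + 2 * (2 : ℕ)) * ∑ v ∈ X, net G.t G.h ψ' v ≤
      2 * (((1 : ℕ) : ℤ) + (2 : ℕ)) * (G.cut X ∩ F).card + ((1 : ℕ) : ℤ) * (G.cut X ∩ Fᶜ).card
  · exact pair_of_orientation G F hF ψ' hψ' 1 2 hY
  push Not at hY
  obtain ⟨Y, hY⟩ := hY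
  exfalso
  obtain ⟨x1, x2, x3, x4⟩ := bad_struct G F hF B hBF ψ hψ X (∑ v ∈ X, σ v) (hbound X) (by
      rw [sum4 σ h0 X, hb, hcc, hd]
      rcases ha with h | h <;> rw [h] <;> split_ifs <;> norm_num) (by
      intro h1 h2
      rw [sum4 σ h0 X, hb, hcc, hd] at h1
      apply nine_le_of_disjoint G F hF h9' X h2
      apply cut_odd G hc F hF ({a, b, c, d} : Finset V) B hBF hB X
      · rw [cnt4]
        by_cases q1 : a ∈ X <;> by_cases q2 : b ∈ X <;> by_cases q3 : c ∈ X <;>
          by_cases q4 : d ∈ X <;> rcases ha with h | h <;>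
          simp [q1, q2, q3, q4, h] at h1 ⊢ <;> decide
      · rw [Finset.card_eq_zero.1 h2]; exact Finset.empty_subset _) (by push Not; exact hX)
  obtain ⟨y1, y2, y3, y4⟩ := bad_struct G F hF B hBF ψ' hψ' Y (∑ v ∈ Y, σ' v) (hbound' Y) (by
      rw [sum4 σ' h0' Y, hc', hd']
      rcases ha' with h | h <;> rcases hb' with h' | h' <;> rw [h, h'] <;> split_ifs <;>
        norm_num) (by
      intro h1 h2
      rw [sum4 σ' h0' Y, hc', hd'] at h1
      apply nine_le_of_disjoint G F hF h9' Y h2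
      apply cut_odd G hc F hF ({a, b, c, d} : Finset V) B hBF hB Y
      · rw [cnt4]
        by_cases q1 : a ∈ Y <;> by_cases q2 : b ∈ Y <;> by_cases q3 : c ∈ Y <;>
          by_cases q4 : d ∈ Y <;> rcases ha' with h | h <;> rcases hb' with h' | h' <;>
          simp [q1, q2, q3, q4, h, h'] at h1 ⊢ <;> decide
      · rw [Finset.card_eq_zero.1 h2]; exact Finset.empty_subset _) (by push Not; exact hY)
  rw [sum4 σ h0 X, hb, hcc, hd] at x4
  rw [sum4 σ' h0' Y, hc', hd'] at y4
  have px : (a ∈ X ∧ c ∈ X ∧ b ∉ X ∧ d ∉ X) ∨ (a ∉ X ∧ c ∉ X ∧ b ∈ X ∧ d ∈ X) := by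
    by_cases q1 : a ∈ X <;> by_cases q2 : b ∈ X <;> by_cases q3 : c ∈ X <;> by_cases q4 : d ∈ X <;>
      rcases ha with h | h <;> simp [q1, q2, q3, q4, h] at x4 ⊢
  have py : ((a ∈ Y ∧ c ∉ Y) ∨ (a ∉ Y ∧ c ∈ Y)) ∧ ((b ∈ Y ∧ d ∉ Y) ∨ (b ∉ Y ∧ d ∈ Y)) := by
    by_cases q1 : a ∈ Y <;> by_cases q2 : b ∈ Y <;> by_cases q3 : c ∈ Y <;> by_cases q4 : d ∈ Y <;>
      rcases ha' with h | h <;> rcases hb' with h' | h' <;>
      simp [q1, q2, q3, q4, h, h'] at y4 ⊢
  apply no_two_bad G hc F hF h9' ({a, b, c, d} : Finset V) hU B hBF hB X Y x1 y1 x2 y2 x3 y3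
  all_goals
    rw [cnt4]
    simp only [Finset.mem_inter, Finset.mem_compl]
    rcases px with ⟨p1, p2, p3, p4⟩ | ⟨p1, p2, p3, p4⟩ <;>
    rcases py with ⟨⟨r1, r2⟩ | ⟨r1, r2⟩, ⟨r3, r4⟩ | ⟨r3, r4⟩⟩ <;>
    simp [p1, p2, p3, p4, r1, r2, r3, r4]

/-- Cyclically 6-edge-connected cubic graphs and 2-factors with at most four odd circuits. -/
theorem exists_pair_oddness_four (hc : G.Cubic) (F : Finset E) (hF : G.IsTwoFactor F)
    (h9' : OddCyclic G 9) (ht : G.oddCount F ≤ 4) :
    ∃ φ₂ φ : E → ℤ, IsFlowPair G 1 2 φ₂ φ ∧ ∀ e, φ₂ e ≠ 0 ↔ e ∈ F := by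
  classical
  obtain ⟨U, hU, hUc⟩ := exists_transversal G F
  obtain ⟨n, hn⟩ := transversal_even G hc F hF U hU
  by_cases hU4 : U.card = 4
  · obtain ⟨a, haU⟩ : U.Nonempty := Finset.card_pos.1 (by omega)
    have h3 : (U.erase a).card = 3 := by rw [Finset.card_erase_of_mem haU]; omega
    obtain ⟨b, c, d, hbc, hbd, hcd, hU3⟩ := Finset.card_eq_three.1 h3
    have hUe : U = {a, b, c, d} := by
      rw [← Finset.insert_erase haU, hU3]
    have hmem : ∀ x, x ∈ ({b, c, d} : Finset V) → a ≠ x := by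
      intro x hx
      rw [← hU3] at hx
      exact (Finset.ne_of_mem_erase hx).symm
    have hab := hmem b (by simp)
    have hac := hmem c (by simp)
    have had := hmem d (by simp)
    obtain ⟨B, hBF, hB⟩ := exists_matching_of_reps G F hF U (hU.inj G) (hU.odd_iff G)
    obtain ⟨ψ, σ, hψ, hσ, h0, hbound⟩ := exists_orientation_signs G Fᶜ B
      (Finset.disjoint_of_subset_right hBF disjoint_compl_left) (deg_compl G hc F hF) U hB
      (fun v => if v = a then b else if v = b then a else if v = c then d else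
        if v = d then c else v) (by
        intro u hu
        rw [hUe] at hu ⊢
        simp only [Finset.mem_insert, Finset.mem_singleton] at hu
        rcases hu with rfl | rfl | rfl | rfl <;>
          simp [hab, hac, had, hbc, hbd, hcd, hab.symm, hac.symm, had.symm, hbc.symm, hbd.symm,
            hcd.symm])
    have hinj := hU.inj G
    rw [hUe] at hσ h0 hB hinj
    have ha1 := (hσ a (by simp)).1
    have hc1 := (hσ c (by simp)).1
    have hb1 : σ b = -σ a := by
      have := (hσ a (by simp)).2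
      simpa using this
    have hd1 : σ d = -σ c := by
      have := (hσ c (by simp)).2
      simpa [hac.symm, hbc.symm] using this
    by_cases hs : σ c = σ a
    · exact four_aux G hc F hF h9' a b c d hab hac had hbc hbd hcd hinj B hBF hB ψ σ hψ h0 ha1 hb1
        hs (by rw [hd1, hs]) hbound
    · have hs' : σ c = -σ a := by
        rcases ha1 with h | h <;> rcases hc1 with h' | h' <;> rw [h, h'] at hs ⊢ <;> simp at hs ⊢
      have hset : ({a, b, c, d} : Finset V) = {a, b, d, c} := by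
        ext v; simp only [Finset.mem_insert, Finset.mem_singleton]; tauto
      rw [hset] at h0 hB hinj
      exact four_aux G hc F hF h9' a b d c hab had hac hbd hbc hcd.symm hinj B hBF hB ψ σ hψ h0 ha1
        hb1 (by rw [hd1, hs', neg_neg]) hs' hbound
  · obtain ⟨τ, hτ⟩ := exists_pairing n U (by omega)
    obtain ⟨B, hBF, hB⟩ := exists_matching_of_reps G F hF U (hU.inj G) (hU.odd_iff G)
    apply exists_pair_of_transversal G hc F hF U hU τ hτ 1 2
    intro X y hcy hlt
    have h1 := two_sep_le U τ hτ X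
    have hhs := G.handshake F X
    rw [Finset.sum_congr rfl (fun v _ => hF v)] at hhs
    simp only [Finset.sum_const, smul_eq_mul] at hhs
    have hs : sep U τ X = 1 := by omega
    have h0 : (G.cut X ∩ F).card = 0 := by omega
    obtain ⟨u, hu⟩ : (U.filter (fun u => u ∈ X ∧ τ u ∉ X)).Nonempty :=
      Finset.card_pos.1 (by unfold sep at hs; omega)
    obtain ⟨hu1, hu2, hu3⟩ := Finset.mem_filter.1 hu
    have hcnt : (U.filter (fun u => u ∈ X)).card = 1 := by
      have h3 : 0 < (U.filter (fun u => u ∈ X)).card :=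
        Finset.card_pos.2 ⟨u, Finset.mem_filter.2 ⟨hu1, hu2⟩⟩
      have h4 : (U.filter (fun u => u ∈ X)).card < U.card :=
        Finset.card_lt_card ⟨Finset.filter_subset _ _, fun h =>
          hu3 (Finset.mem_filter.1 (h (hτ u hu1).1)).2⟩
      omega
    have h2 := nine_le_of_disjoint G F hF h9' X h0
      (cut_odd G hc F hF U B hBF hB X (by rw [hcnt]; exact odd_one) (by
        rw [Finset.card_eq_zero.1 h0]; exact Finset.empty_subset _))
    omega


end

end Pool.Agent.J6H24.OF
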